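import Pool.Agent.N783.CF.Stm

/-!
# PROJECT CF, part ADJ (helper526): the root in the algebraic closure
-/

set_option autoImplicit false

open Polynomial NumberField
open scoped IntermediateField

namespace Pool.Agent.N526.CF

open Pool.Agent.N783.CF
open Pool.Agent.N783.PF (Bd Ht dsc fF SqF IsGen Fam GoodS GoodF LBad Cg sp rd)

theorem t_ADJ : S_ADJ := by
  intro g F _ _ f hm hd hirr
  have hm' : (fF f).Monic := hm.map _
  have hd' : (fF f).natDegree = 2 * g + 1 := by rw [hm.natDegree_map, hd]
  have hdeg : (fF f).degree ≠ 0 := by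
    intro h
    have h2 : (fF f).natDegree = 0 := natDegree_eq_of_degree_eq_some h
    rw [hd'] at h2
    omega
  obtain ⟨α, hα⟩ := IsAlgClosed.exists_aeval_eq_zero (AlgebraicClosure F) (fF f) hdeg
  have hint : IsIntegral F α := ⟨fF f, hm', by rwa [← aeval_def]⟩
  have hmin : minpoly F α = fF f := (minpoly.eq_of_irreducible_of_monic hirr hα hm').symm
  have : FiniteDimensional F F⟮α⟯ := IntermediateField.adjoin.finiteDimensional hint
  have : CharZero F⟮α⟯ :=
    charZero_of_injective_algebraMap (R := F) (algebraMap F _).injective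
  have : FiniteDimensional ℚ F⟮α⟯ := FiniteDimensional.trans ℚ F _
  have : NumberField F⟮α⟯ := { }
  have hdim : (IntermediateField.adjoin.powerBasis hint).dim = 2 * g + 1 := by
    rw [IntermediateField.adjoin.powerBasis_dim, hmin, hd']
  refine ⟨F⟮α⟯, inferInstance, IntermediateField.AdjoinSimple.gen F α, hm, hd, ?_, ?_, ?_⟩
  · rw [← hmin, ← IntermediateField.minpoly_gen F α]
    exact minpoly.aeval _ _
  · rw [(IntermediateField.adjoin.powerBasis hint).finrank, hdim]
  · intro x
    obtain ⟨p, hp, hx⟩ := (IntermediateField.adjoin.powerBasis hint).exists_eq_aeval x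
    rw [hdim] at hp
    rw [IntermediateField.adjoin.powerBasis_gen] at hx
    refine ⟨fun i => p.coeff i, ?_⟩
    rw [hx, aeval_eq_sum_range' hp, Finset.sum_range]
    refine Finset.sum_congr rfl fun i _ => ?_
    rw [Algebra.smul_def]

end Pool.Agent.N526.CF
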